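import Pool.Agent.H102R3.FR.Stmts

open MeasureTheory ProbabilityTheory Filter Topology
open scoped ENNReal NNReal

namespace Pool.Agent.H102R3.FRA

open Pool.Agent.H102R3.FR

section Graph

variable {V : Type} [Fintype V] [DecidableEq V] (G : SimpleGraph V) [DecidableRel G.Adj]

theorem stay_off (A : Finset V) (j : ℕ) (x : V) (hx : x ∉ A) : stay G A j x = 0 := by
  cases j <;> simp [stay, hx]

theorem stay_nonneg (A : Finset V) (j : ℕ) (x : V) : 0 ≤ stay G A j x := by
  induction j generalizing x with
  | zero => simp only [stay]; split_ifs <;> norm_num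
  | succ j ih =>
    simp only [stay]
    split_ifs
    · exact div_nonneg (Finset.sum_nonneg fun y _ => ih y) (by positivity)
    · exact le_rfl

theorem stay_le_one (A : Finset V) (j : ℕ) (x : V) : stay G A j x ≤ 1 := by
  induction j generalizing x with
  | zero => simp only [stay]; split_ifs <;> norm_num
  | succ j ih =>
    simp only [stay]
    split_ifs
    · apply div_le_one_of_le₀ _ (by positivity)
      calc ∑ y ∈ G.neighborFinset x, stay G A j y ≤ ∑ y ∈ G.neighborFinset x, (1 : ℝ) :=
            Finset.sum_le_sum fun y _ => ih y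
        _ = (G.degree x : ℝ) := by simp
    · norm_num

theorem stay_succ_le (A : Finset V) (j : ℕ) (x : V) : stay G A (j + 1) x ≤ stay G A j x := by
  induction j generalizing x with
  | zero =>
    by_cases hx : x ∈ A
    · have : stay G A 0 x = 1 := by simp [stay, hx]
      rw [this]; exact stay_le_one G A _ x
    · rw [stay_off G A _ x hx, stay_off G A _ x hx]
  | succ j ih =>
    by_cases hx : x ∈ A
    · have h1 : stay G A (j + 1 + 1) x = (∑ y ∈ G.neighborFinset x, stay G A (j + 1) y) / (G.degree x : ℝ) := by
        simp [stay, hx]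
      have h2 : stay G A (j + 1) x = (∑ y ∈ G.neighborFinset x, stay G A j y) / (G.degree x : ℝ) := by
        simp [stay, hx]
      rw [h1, h2]
      exact div_le_div_of_nonneg_right (Finset.sum_le_sum fun y _ => ih y) (by positivity)
    · rw [stay_off G A _ x hx, stay_off G A _ x hx]

theorem stay_anti (A : Finset V) (x : V) : Antitone (fun j => stay G A j x) :=
  antitone_nat_of_succ_le fun j => stay_succ_le G A j x

theorem esc_mono (A : Finset V) {i j : ℕ} (h : i ≤ j) : esc G A i ≤ esc G A j := by
  unfold esc
  apply Finset.sum_le_sum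
  intro x _
  apply mul_le_mul_of_nonneg_left _ (by positivity)
  have := stay_anti G A x h
  simp only at this
  linarith

theorem esc_nonneg (A : Finset V) (j : ℕ) : 0 ≤ esc G A j := by
  unfold esc
  apply Finset.sum_nonneg
  intro x _
  exact mul_nonneg (by positivity) (by linarith [stay_le_one G A j x])

theorem bd_pos (hG : G.Connected) (B : Finset V) (h1 : B.Nonempty) (h2 : B ≠ Finset.univ) :
    1 ≤ bd G B := by
  obtain ⟨x, hx⟩ := h1
  obtain ⟨y, hy⟩ : ∃ y, y ∉ B := by
    by_contra hcon
    push Not at hcon
    exact h2 (Finset.eq_univ_iff_forall.2 hcon)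
  obtain ⟨p⟩ := hG.preconnected x y
  have key : ∀ (a b : V) (p : G.Walk a b), a ∈ B → b ∉ B → ∃ u v, u ∈ B ∧ v ∉ B ∧ G.Adj u v := by
    intro a b p
    induction p with
    | nil => intro h h'; exact absurd h h'
    | cons hadj q ih =>
      rename_i u v w
      intro h h'
      by_cases hv : v ∈ B
      · exact ih hv h'
      · exact ⟨u, v, h, hv, hadj⟩
  obtain ⟨u, v, hu, hv, huv⟩ := key x y p hx hy
  unfold bd
  apply Finset.card_pos.2
  exact ⟨(u, v), by simp [hu, hv, huv]⟩

end Graph

section Model

variable {V : Type} [Fintype V] [DecidableEq V] [MeasurableSpace V] [DiscreteMeasurableSpace V]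
  (G : SimpleGraph V) [DecidableRel G.Adj]

/-- all choices are neighbours -/
def Good (ω : Om V) : Prop :=
  (∀ v j, G.Adj j.2.2 ((ω.1 v).2 j)) ∧ ∀ j, G.Adj j.2 (ω.2 j)

theorem nbr_adj (hdeg : ∀ x, 0 < G.degree x) (x : V) : nbr G x {y | ¬ G.Adj x y} = 0 := by
  have hne : (G.neighborFinset x).Nonempty := by
    rw [← Finset.card_pos, G.card_neighborFinset_eq_degree]; exact hdeg x
  unfold nbr
  rw [dif_pos hne, PMF.toMeasure_apply_eq_zero_iff _ (MeasurableSet.of_discrete)]
  rw [Set.disjoint_left]
  intro y hy hy'
  rw [PMF.mem_support_uniformOfFinset_iff, SimpleGraph.mem_neighborFinset] at hy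
  exact hy' hy

theorem good_ae (hdeg : ∀ x, 0 < G.degree x) (lam : ℝ≥0) : ∀ᵐ ω ∂(frog G lam), Good G ω := by
  unfold Good
  rw [Filter.eventually_and]
  constructor
  · rw [ae_all_iff]
    intro v
    rw [ae_all_iff]
    intro j
    have hmp : MeasurePreserving (fun ω : Om V => (ω.1 v).2 j) (frog G lam) (nbr G j.2.2) := by
      have h1 : MeasurePreserving (Prod.fst : Om V → _) (frog G lam)
          (Measure.pi (fun _ : V => vlaw G lam)) := measurePreserving_fst
      have h2 : MeasurePreserving (Function.eval v)
          (Measure.pi (fun _ : V => vlaw G lam)) (vlaw G lam) :=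
        measurePreserving_eval _ v
      have h3 : MeasurePreserving (Prod.snd : ℕ × (ℕ × ℕ × V → V) → _) (vlaw G lam)
          (Measure.infinitePi (fun j : ℕ × ℕ × V => nbr G j.2.2)) := measurePreserving_snd
      have h4 : MeasurePreserving (Function.eval j)
          (Measure.infinitePi (fun j : ℕ × ℕ × V => nbr G j.2.2)) (nbr G j.2.2) :=
        measurePreserving_eval_infinitePi (fun j : ℕ × ℕ × V => nbr G j.2.2) j
      exact h4.comp (h3.comp (h2.comp h1))
    have h0 : ∀ᵐ y ∂(nbr G j.2.2), G.Adj j.2.2 y := nbr_adj G hdeg j.2.2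
    exact hmp.quasiMeasurePreserving.ae h0
  · rw [ae_all_iff]
    intro j
    have hmp : MeasurePreserving (fun ω : Om V => ω.2 j) (frog G lam) (nbr G j.2) := by
      have h1 : MeasurePreserving (Prod.snd : Om V → _) (frog G lam)
          (stepLaw G) := measurePreserving_snd
      have h4 : MeasurePreserving (Function.eval j) (stepLaw G) (nbr G j.2) :=
        measurePreserving_eval_infinitePi (fun j : ℕ × V => nbr G j.2) j
      exact h4.comp h1
    have h0 : ∀ᵐ y ∂(nbr G j.2), G.Adj j.2 y := nbr_adj G hdeg j.2
    exact hmp.quasiMeasurePreserving.ae h0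

theorem mem_rset (o : V) (τ : ℕ) (ω : Om V) (v : V) : v ∈ rset o τ ω ↔ Visited o τ ω v := by
  simp [rset]

theorem o_mem (o : V) (τ : ℕ) (ω : Om V) : o ∈ rset o τ ω := by
  rw [mem_rset]; exact Visited.extra 0 (Nat.zero_le _)

theorem rset_conn (o : V) (τ : ℕ) (ω : Om V) (hg : Good G ω) :
    (G.induce ((rset o τ ω : Finset V) : Set V)).Preconnected := by
  have key : ∀ v (hv : Visited o τ ω v),
      (G.induce ((rset o τ ω : Finset V) : Set V)).Reachable
        ⟨o, o_mem o τ ω⟩ ⟨v, (mem_rset o τ ω v).2 hv⟩ := by
    intro v hv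
    induction hv with
    | extra k hk =>
      induction k with
      | zero => exact SimpleGraph.Reachable.refl _
      | succ k ih =>
        refine (ih (by omega)).trans (SimpleGraph.Adj.reachable ?_)
        exact hg.2 (k, walk ω.2 o k)
    | step v hv i hi k hk ihv =>
      induction k with
      | zero => exact ihv
      | succ k ih =>
        refine (ih (by omega)).trans (SimpleGraph.Adj.reachable ?_)
        exact hg.1 v (i, k, walk (fun p => (ω.1 v).2 (i, p)) v k)
  intro a b
  have ha := key a.1 ((mem_rset o τ ω a.1).1 a.2)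
  have hb := key b.1 ((mem_rset o τ ω b.1).1 b.2)
  exact ha.symm.trans hb

end Model

end Pool.Agent.H102R3.FRA
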