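import Pool.Agent.H102R3.FR.Base

open MeasureTheory ProbabilityTheory Filter Topology
open scoped ENNReal NNReal

namespace Pool.Agent.H102R3.FRA

open Pool.Agent.H102R3.FR

section Count

variable {V : Type} [Fintype V] [DecidableEq V] (G : SimpleGraph V) [DecidableRel G.Adj]

/-- weights -/
noncomputable def wt (n d b t : ℕ) : ℝ :=
  (((2 * (d * n) : ℕ) : ℝ)⁻¹) ^ b * ((2 : ℝ)⁻¹) ^ ((d + 1) * t)

theorem wt_eq (n d b t : ℕ) (hn : 1 ≤ n) (hd : 1 ≤ d) :
    wt n d b t = Real.exp (-(b * Real.log (2 * (d * n))) - t * ((d + 1) * Real.log 2)) := by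
  have h1 : (0 : ℝ) < ((2 * (d * n) : ℕ) : ℝ) := by
    have : 0 < 2 * (d * n) := by positivity
    exact_mod_cast this
  unfold wt
  rw [sub_eq_add_neg, Real.exp_add]
  congr 1
  · rw [inv_pow, ← Real.exp_log (pow_pos h1 b), ← Real.exp_neg, Real.log_pow]
    push_cast
    rfl
  · rw [inv_pow, ← Real.exp_log (pow_pos (by norm_num : (0:ℝ) < 2) ((d + 1) * t)), ← Real.exp_neg,
      Real.log_pow]
    push_cast
    ring_nf

theorem wt_nonneg (n d b t : ℕ) : 0 ≤ wt n d b t := by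
  unfold wt; positivity

open Classical in
theorem sum_wt (hB : TaskCntB) (hT : TaskCntT) (hG : G.Connected) (d : ℕ) (hd : 1 ≤ d)
    (hdeg : ∀ x, G.degree x ≤ d) (o : V) (Th : Finset V → Finset V) (hTh : ∀ A, Th A ⊆ A)
    (F : Finset (Finset V))
    (hF : ∀ A ∈ F, o ∈ A ∧ (G.induce ((A : Finset V) : Set V)).Preconnected) :
    ∑ A ∈ F, wt (Fintype.card V) d (bd G (A \ Th A)) (Th A).card ≤ 8 := by
  have h1 : ∑ A ∈ F, wt (Fintype.card V) d (bd G (A \ Th A)) (Th A).card
      = ∑ B : Finset V, ∑ A ∈ F with A \ Th A = B,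
          wt (Fintype.card V) d (bd G (A \ Th A)) (Th A).card := by
    rw [Finset.sum_fiberwise]
  rw [h1]
  have h2 : ∀ B : Finset V, ∑ A ∈ F with A \ Th A = B,
      wt (Fintype.card V) d (bd G (A \ Th A)) (Th A).card
      ≤ 2 * (((d * Fintype.card V : ℕ) : ℝ)⁻¹) ^ (bd G B) := by
    intro B
    have h3 : ∑ A ∈ F with A \ Th A = B,
        wt (Fintype.card V) d (bd G (A \ Th A)) (Th A).card
        = (((2 * (d * Fintype.card V) : ℕ) : ℝ)⁻¹) ^ (bd G B) *
          ∑ A ∈ F with A \ Th A = B, ((2 : ℝ)⁻¹) ^ ((d + 1) * (Th A).card) := by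
      rw [Finset.mul_sum]
      apply Finset.sum_congr rfl
      intro A hA
      rw [Finset.mem_filter] at hA
      unfold wt
      rw [hA.2]
    have hun : ∀ A, A \ Th A = B → Th A ∪ B = A := by
      intro A hA
      rw [← hA]
      exact Finset.union_sdiff_of_subset (hTh A)
    have h4 : ∑ A ∈ F with A \ Th A = B, ((2 : ℝ)⁻¹) ^ ((d + 1) * (Th A).card)
        = ∑ Θ ∈ (F.filter (fun A => A \ Th A = B)).image Th, ((2 : ℝ)⁻¹) ^ ((d + 1) * Θ.card) := by
      rw [Finset.sum_image]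
      intro A hA A' hA' h
      rw [Finset.coe_filter] at hA hA'
      rw [← hun A hA.2, ← hun A' hA'.2, h]
    have h5 := hT V G d hdeg o B ((F.filter (fun A => A \ Th A = B)).image Th) (by
      intro Θ hΘ
      rw [Finset.mem_image] at hΘ
      obtain ⟨A, hA, rfl⟩ := hΘ
      rw [Finset.mem_filter] at hA
      rw [hun A hA.2]
      refine ⟨?_, hF A hA.1⟩
      rw [← hA.2]
      exact Finset.disjoint_sdiff)
    rw [h3, h4]
    calc _ ≤ (((2 * (d * Fintype.card V) : ℕ) : ℝ)⁻¹) ^ (bd G B) * 2 ^ (bd G B + 1) :=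
          mul_le_mul_of_nonneg_left h5 (by positivity)
      _ = 2 * (((d * Fintype.card V : ℕ) : ℝ)⁻¹) ^ (bd G B) := by
          rw [pow_succ, ← mul_assoc, ← mul_pow]
          rw [mul_comm]
          congr 2
          push_cast
          rw [mul_inv]
          field_simp
  calc _ ≤ ∑ B : Finset V, 2 * (((d * Fintype.card V : ℕ) : ℝ)⁻¹) ^ (bd G B) :=
        Finset.sum_le_sum fun B _ => h2 B
    _ = 2 * ∑ B : Finset V, (((d * Fintype.card V : ℕ) : ℝ)⁻¹) ^ (bd G B) := by
        rw [Finset.mul_sum]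
    _ ≤ 2 * 4 := mul_le_mul_of_nonneg_left (hB V G d hG hd hdeg) (by norm_num)
    _ = 8 := by norm_num

end Count

section Exps

variable {V : Type} [Fintype V] [DecidableEq V] (G : SimpleGraph V) [DecidableRel G.Adj]

/-- lower bound for the escape sum of large sets -/
theorem esc_lower (hG : G.Connected) (hpos : ∀ x, 0 < G.degree x)
    (A Θ : Finset V) (s j m : ℕ) (hsj : s ≤ j)
    (hA : A ≠ Finset.univ) (hm : m < A.card) (hΘ : Θ ⊆ A)
    (h1 : ∀ x ∈ Θ, stay G A s x ≤ 1 / 2)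
    (h2 : Real.sqrt s * (bd G (A \ Θ) : ℝ) ≤ 7 * esc G A s) :
    min (Real.sqrt s / 7) ((m : ℝ) / 2) ≤ esc G A j := by
  have hmono := esc_mono G A hsj
  by_cases hB : (A \ Θ).Nonempty
  · have hne : A \ Θ ≠ Finset.univ := by
      intro h
      apply hA
      rw [Finset.eq_univ_iff_forall] at h ⊢
      intro x
      exact (Finset.mem_sdiff.1 (h x)).1
    have h3 := bd_pos G hG _ hB hne
    have h4 : (1 : ℝ) ≤ (bd G (A \ Θ) : ℝ) := by exact_mod_cast h3
    have h5 : Real.sqrt s * 1 ≤ Real.sqrt s * (bd G (A \ Θ) : ℝ) :=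
      mul_le_mul_of_nonneg_left h4 (Real.sqrt_nonneg _)
    apply (min_le_left _ _).trans
    linarith
  · have h3 : A ⊆ Θ := by
      rw [Finset.not_nonempty_iff_eq_empty, Finset.sdiff_eq_empty_iff_subset] at hB
      exact hB
    apply (min_le_right _ _).trans
    refine le_trans ?_ hmono
    unfold esc
    have h6 : (A.card : ℝ) * (1 / 2) ≤ ∑ x ∈ A, (G.degree x : ℝ) * (1 - stay G A s x) := by
      rw [← nsmul_eq_mul]
      apply Finset.card_nsmul_le_sum
      intro x hx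
      have h7 := h1 x (h3 hx)
      have h8 : (1 : ℝ) ≤ (G.degree x : ℝ) := by exact_mod_cast hpos x
      have h9 : (1 : ℝ) / 2 ≤ 1 - stay G A s x := by linarith
      calc (1 : ℝ) / 2 = 1 * (1 / 2) := by ring
        _ ≤ (G.degree x : ℝ) * (1 - stay G A s x) := by
            apply mul_le_mul h8 h9 (by norm_num) (by linarith)
    have h10 : (m : ℝ) ≤ (A.card : ℝ) := by exact_mod_cast hm.le
    linarith

/-- case 1 exponent -/
theorem case1 (d : ℕ) (hd : 1 ≤ d) (hdeg : ∀ x, G.degree x ≤ d) (A : Finset V) (j b t : ℕ)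
    (lam : ℝ) (hlam : 0 < lam) (C3 σ D Y rs : ℝ)
    (hσ : σ ≤ esc G A j) (hb : rs * b ≤ 7 * esc G A j) (ht : C3 * t ≤ esc G A j)
    (c1 : D ≤ lam / (3 * d) * (rs / 7)) (c2 : Y ≤ lam / (3 * d) * C3) :
    lam * ∑ v ∈ A, (1 * stay G A j v - 1) ≤ -(lam / (3 * d)) * σ - b * D - t * Y := by
  have hd' : (0 : ℝ) < d := by exact_mod_cast hd
  have h1 : esc G A j ≤ d * ∑ v ∈ A, (1 - stay G A j v) := by
    unfold esc
    rw [Finset.mul_sum]
    apply Finset.sum_le_sum
    intro x _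
    apply mul_le_mul_of_nonneg_right
    · exact_mod_cast hdeg x
    · linarith [stay_le_one G A j x]
  have h2 : ∑ v ∈ A, (1 * stay G A j v - 1) = - ∑ v ∈ A, (1 - stay G A j v) := by
    rw [← Finset.sum_neg_distrib]
    apply Finset.sum_congr rfl
    intro v _; ring
  rw [h2]
  set S := esc G A j with hS
  set X := ∑ v ∈ A, (1 - stay G A j v) with hX
  have h3 : lam / d * S ≤ lam * X := by
    rw [div_mul_eq_mul_div, div_le_iff₀ hd']
    calc lam * S ≤ lam * (d * X) := mul_le_mul_of_nonneg_left h1 hlam.le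
      _ = lam * X * d := by ring
  have hc : 0 < lam / (3 * d) := by positivity
  have h4 : lam / (3 * d) * σ ≤ lam / (3 * d) * S := mul_le_mul_of_nonneg_left hσ hc.le
  have h5 : b * D ≤ lam / (3 * d) * S := by
    calc b * D ≤ b * (lam / (3 * d) * (rs / 7)) := mul_le_mul_of_nonneg_left c1 (by positivity)
      _ = lam / (3 * d) * (rs * b / 7) := by ring
      _ ≤ lam / (3 * d) * S := by
          apply mul_le_mul_of_nonneg_left _ hc.le
          linarith
  have h6 : t * Y ≤ lam / (3 * d) * S := by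
    calc t * Y ≤ t * (lam / (3 * d) * C3) := mul_le_mul_of_nonneg_left c2 (by positivity)
      _ = lam / (3 * d) * (C3 * t) := by ring
      _ ≤ lam / (3 * d) * S := mul_le_mul_of_nonneg_left ht hc.le
  have h7 : lam / d * S = lam / (3 * d) * S + lam / (3 * d) * S + lam / (3 * d) * S := by
    field_simp; ring
  have h8 : lam * -X = -(lam * X) := by ring
  rw [h8]
  linarith

/-- case 2a exponent -/
theorem case2a (A Θ : Finset V) (j b k : ℕ)
    (lam : ℝ) (hlam : 0 < lam) (C3 σ D Y rs z : ℝ) (hC3 : 0 < C3) (hz : 1 ≤ z) (hY : 0 ≤ Y)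
    (hσ : σ ≤ esc G A j) (hb : rs * b ≤ 7 * esc G A j) (ht : esc G A j ≤ C3 * Θ.card)
    (hrev : (k : ℝ) * ∑ x ∈ Θ, stay G A j x ≤ esc G A j)
    (hk : C3 * z ≤ k) (hlog : 2 / lam * (Y + 2) ≤ Real.log z)
    (c3 : 7 * C3 * D ≤ rs) :
    lam * ∑ v ∈ Θ, (z * stay G A j v - 1) - lam * Θ.card / 2 * Real.log z
      ≤ - (σ / C3) - b * D - Θ.card * Y := by
  set t : ℝ := (Θ.card : ℝ) with htdef
  have ht0 : 0 ≤ t := by positivity
  set S := esc G A j with hS
  set X := ∑ x ∈ Θ, stay G A j x with hX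
  have hX0 : 0 ≤ X := Finset.sum_nonneg fun x _ => stay_nonneg G A j x
  have h1 : z * X ≤ t := by
    have h2 : C3 * z * X ≤ C3 * t := by
      calc C3 * z * X ≤ k * X := mul_le_mul_of_nonneg_right hk hX0
        _ ≤ S := hrev
        _ ≤ C3 * t := ht
    have h3 : C3 * (z * X) ≤ C3 * t := by linarith
    exact le_of_mul_le_mul_left h3 hC3
  have h4 : ∑ v ∈ Θ, (z * stay G A j v - 1) = z * X - t := by
    rw [Finset.sum_sub_distrib, ← Finset.mul_sum]
    simp [hX, htdef]
  rw [h4]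
  have h5 : lam * (z * X - t) ≤ 0 := mul_nonpos_of_nonneg_of_nonpos hlam.le (by linarith)
  have h6 : t * (Y + 2) ≤ lam * t / 2 * Real.log z := by
    calc t * (Y + 2) = lam * t / 2 * (2 / lam * (Y + 2)) := by field_simp
      _ ≤ lam * t / 2 * Real.log z := mul_le_mul_of_nonneg_left hlog (by positivity)
  have h7 : σ / C3 ≤ t := by
    rw [div_le_iff₀ hC3]; linarith
  have h8 : b * D ≤ t := by
    have h9 : 7 * C3 * (b * D) ≤ 7 * C3 * t := by
      calc 7 * C3 * (b * D) = b * (7 * C3 * D) := by ring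
        _ ≤ b * rs := mul_le_mul_of_nonneg_left c3 (by positivity)
        _ = rs * b := by ring
        _ ≤ 7 * S := hb
        _ ≤ 7 * (C3 * t) := by linarith
        _ = 7 * C3 * t := by ring
    exact le_of_mul_le_mul_left h9 (by positivity)
  nlinarith

/-- case 2b exponent -/
theorem case2b (b : ℕ) (lam : ℝ) (hlam : 0 < lam) (C3 σ L rs : ℝ) (hC3 : 0 < C3)
    (c5 : L ≤ lam / 20 * (rs / (7 * C3))) :
    -(lam / 10) * max (σ / C3) (rs * b / (7 * C3)) ≤ -(lam / 20) * (σ / C3) - b * L := by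
  have h1 := le_max_left (σ / C3) (rs * b / (7 * C3))
  have h2 := le_max_right (σ / C3) (rs * b / (7 * C3))
  set M := max (σ / C3) (rs * b / (7 * C3)) with hM
  have h3 : b * L ≤ lam / 20 * M := by
    calc b * L ≤ b * (lam / 20 * (rs / (7 * C3))) := mul_le_mul_of_nonneg_left c5 (by positivity)
      _ = lam / 20 * (rs * b / (7 * C3)) := by ring
      _ ≤ lam / 20 * M := mul_le_mul_of_nonneg_left h2 (by positivity)
  have h4 : lam / 20 * (σ / C3) ≤ lam / 20 * M := mul_le_mul_of_nonneg_left h1 (by positivity)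
  linarith

end Exps

end Pool.Agent.H102R3.FRA
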