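import Pool.Agent.H102R3.FR.Final
import Pool.Agent.helper128R3.FRCut
import Pool.Agent.H646R3.FRTaskRev
import Pool.Agent.H138R3.FR.CntB
import Pool.Agent.H428R3.FRCntT
import Pool.Agent.H915R3.FRWalk
import Pool.Agent.H105R3.FRTaskPart
import Pool.Agent.H460U3.FRMgf
import Pool.Agent.H211R3.FR.Wald
import Pool.Agent.H528R3.FRSmall

namespace Pool.Agent.H102R3.FR

theorem mainProved : Main :=
  Pool.Agent.H102R3.FRA.main taskCntB Pool.Agent.H428R3.FRCntT.taskCntT taskCut Pool.Agent.H646R3.FRRev.taskRev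
    taskWalk (taskMgf (Pool.Agent.H105R3.FRPart.taskPart taskWalk))
    Pool.Agent.H211R3.FRWald.taskWald Pool.Agent.H528R3.FR.taskSmall

end Pool.Agent.H102R3.FR
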