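import Pool.Agent.H102R3.FR.Core

open MeasureTheory ProbabilityTheory Filter Topology
open scoped ENNReal NNReal

namespace Pool.Agent.H102R3.FRA

open Pool.Agent.H102R3.FR

theorem card_small (V : Type) [Fintype V] [DecidableEq V] (m : ℕ) :
    (Finset.univ.filter (fun A : Finset V => A.card ≤ m)).card ≤ (Fintype.card V + 1) ^ m := by
  classical
  have h : (Finset.univ.filter (fun A : Finset V => A.card ≤ m)).card ≤
      (Finset.univ : Finset (Fin m → Option V)).card := by
    apply Finset.card_le_card_of_surjOn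
      (fun f : Fin m → Option V => Finset.univ.filter (fun v => ∃ i, f i = some v))
    intro A hA
    rw [Finset.coe_filter] at hA
    have hA' : A.card ≤ m := hA.2
    refine ⟨fun i => A.toList[i.1]?, by simp, ?_⟩
    ext v
    simp only [Finset.mem_filter, Finset.mem_univ, true_and]
    constructor
    · rintro ⟨i, hi⟩
      exact Finset.mem_toList.1 (List.mem_of_getElem? hi)
    · intro hv
      obtain ⟨j, hj⟩ := List.mem_iff_getElem?.1 (Finset.mem_toList.2 hv)
      have hjl : j < A.toList.length := by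
        by_contra hcon
        push Not at hcon
        rw [List.getElem?_eq_none hcon] at hj
        simp at hj
      rw [Finset.length_toList] at hjl
      exact ⟨⟨j, by omega⟩, hj⟩
  refine h.trans ?_
  rw [Finset.card_univ, Fintype.card_fun, Fintype.card_option, Fintype.card_fin]

/-- the small sets are negligible -/
theorem small_lim (aa q ε : ℝ) (haa : 0 < aa) (hq : 0 < q) (hq1 : q ≤ 1) (hε : 0 < ε) (m : ℕ)
    (hm : 1 ≤ m) : ∃ N : ℕ, ∀ n : ℕ, N ≤ n → ∀ j : ℕ, (aa * Real.log n) ^ 2 / m - 1 ≤ j →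
      ((n : ℝ) + 1) ^ m * (1 - q) ^ j ≤ ε := by
  have hm' : (0 : ℝ) < m := by exact_mod_cast hm
  set X0 : ℝ := 4 * m * (m + 2) / (q * aa ^ 2) with hX0
  -- choose N
  have hlim : Tendsto (fun n : ℕ => Real.log ((n : ℝ) + 1)) atTop atTop :=
    Real.tendsto_log_atTop.comp (tendsto_atTop_add_const_right _ _ tendsto_natCast_atTop_atTop)
  obtain ⟨N, hN⟩ := Filter.eventually_atTop.1
    (hlim.eventually_ge_atTop (max (max X0 1) (-Real.log ε)))
  refine ⟨max N 2, ?_⟩
  intro n hn j hj
  have hn2 : 2 ≤ n := le_trans (le_max_right _ _) hn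
  have hx := hN n (le_trans (le_max_left _ _) hn)
  set x : ℝ := Real.log ((n : ℝ) + 1) with hxdef
  have hx1 : X0 ≤ x := le_trans (le_trans (le_max_left _ _) (le_max_left _ _)) hx
  have hx2 : 1 ≤ x := le_trans (le_trans (le_max_right _ _) (le_max_left _ _)) hx
  have hx3 : -Real.log ε ≤ x := le_trans (le_max_right _ _) hx
  have hn' : (2 : ℝ) ≤ n := by exact_mod_cast hn2
  have hlogn : x / 2 ≤ Real.log n := by
    have h1 : x ≤ Real.log ((n : ℝ) ^ 2) := by
      apply Real.log_le_log (by positivity)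
      nlinarith
    rw [Real.log_pow] at h1
    push_cast at h1
    linarith
  have h1 : ((n : ℝ) + 1) ^ m = Real.exp (m * x) := by
    rw [← Real.exp_log (pow_pos (by positivity : (0:ℝ) < (n : ℝ) + 1) m), Real.log_pow]
  have h2 : (1 - q) ^ j ≤ Real.exp (-(q * j)) := by
    have h3 : 1 - q ≤ Real.exp (-q) := by
      have := Real.add_one_le_exp (-q); linarith
    calc (1 - q) ^ j ≤ (Real.exp (-q)) ^ j := pow_le_pow_left₀ (by linarith) h3 j
      _ = Real.exp (-(q * j)) := by
          rw [← Real.exp_nat_mul]; congr 1; ring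
  have h4 : (aa * x) ^ 2 / (4 * m) ≤ (aa * Real.log n) ^ 2 / m := by
    have h5 : (aa * x) ^ 2 / 4 ≤ (aa * Real.log n) ^ 2 := by
      have h6 : aa * x / 2 ≤ aa * Real.log n := by
        have := mul_le_mul_of_nonneg_left hlogn haa.le
        linarith
      have h7 : 0 ≤ aa * x / 2 := by positivity
      nlinarith
    rw [div_le_div_iff₀ (by positivity) hm']
    nlinarith
  have h8 : q * ((aa * x) ^ 2 / (4 * m) - 1) ≤ q * j :=
    mul_le_mul_of_nonneg_left (by linarith) hq.le
  have h9 : (m + 2) * x ≤ q * ((aa * x) ^ 2 / (4 * m)) := by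
    have h10 : (m + 2) * (4 * m) ≤ x * (q * aa ^ 2) := by
      rw [hX0, div_le_iff₀ (by positivity)] at hx1
      linarith
    have h11 : q * ((aa * x) ^ 2 / (4 * m)) = x * (x * (q * aa ^ 2)) / (4 * m) := by
      field_simp
    rw [h11, le_div_iff₀ (by positivity)]
    have h12 := mul_le_mul_of_nonneg_left h10 (by linarith : (0:ℝ) ≤ x)
    nlinarith
  calc ((n : ℝ) + 1) ^ m * (1 - q) ^ j ≤ Real.exp (m * x) * Real.exp (-(q * j)) := by
        rw [h1]
        exact mul_le_mul_of_nonneg_left h2 (Real.exp_pos _).le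
    _ = Real.exp (m * x - q * j) := by rw [← Real.exp_add]; congr 1
    _ ≤ Real.exp (-x) := by
        apply Real.exp_le_exp.2
        nlinarith
    _ ≤ Real.exp (Real.log ε) := Real.exp_le_exp.2 (by linarith)
    _ = ε := Real.exp_log hε

/-- the main error terms for fixed large m -/
theorem main_lim (a b c : ℝ) (ha : 0 < a) (hb : 0 < b) (hc : 0 < c) (ε : ℝ) (hε : 0 < ε) :
    ∃ m : ℕ, 1 ≤ m ∧ 8 * (Real.exp (-a * ((m : ℝ) / 2)) + Real.exp (-((m : ℝ) / 2 / b))) +
      4 * Real.exp (-c * ((m : ℝ) / 2 / b)) ≤ ε := by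
  have h0 : Tendsto (fun m : ℕ => (m : ℝ) / 2) atTop atTop :=
    tendsto_natCast_atTop_atTop.atTop_div_const (by norm_num)
  have h1 : Tendsto (fun m : ℕ => Real.exp (-a * ((m : ℝ) / 2))) atTop (𝓝 0) := by
    apply Real.tendsto_exp_atBot.comp
    exact h0.const_mul_atTop_of_neg (by linarith)
  have h2 : Tendsto (fun m : ℕ => Real.exp (-((m : ℝ) / 2 / b))) atTop (𝓝 0) := by
    apply Real.tendsto_exp_atBot.comp
    exact tendsto_neg_atTop_atBot.comp (h0.atTop_div_const hb)
  have h3 : Tendsto (fun m : ℕ => Real.exp (-c * ((m : ℝ) / 2 / b))) atTop (𝓝 0) := by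
    apply Real.tendsto_exp_atBot.comp
    exact (h0.atTop_div_const hb).const_mul_atTop_of_neg (by linarith)
  have h4 : Tendsto (fun m : ℕ => 8 * (Real.exp (-a * ((m : ℝ) / 2)) + Real.exp (-((m : ℝ) / 2 / b))) +
      4 * Real.exp (-c * ((m : ℝ) / 2 / b))) atTop (𝓝 0) := by
    have := ((h1.add h2).const_mul 8).add (h3.const_mul 4)
    simpa using this
  obtain ⟨M, hM⟩ := Filter.eventually_atTop.1 (h4.eventually_le_const hε)
  exact ⟨max M 1, le_max_right _ _, hM _ (le_max_left _ _)⟩

end Pool.Agent.H102R3.FRA
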