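import Pool.Agent.H102R3.FR.Union
import Pool.Agent.H102R3.FR.Limit

open MeasureTheory ProbabilityTheory Filter Topology
open scoped ENNReal NNReal

namespace Pool.Agent.H102R3.FRA

open Pool.Agent.H102R3.FR

theorem susc_le (V : Type) [Fintype V] [DecidableEq V] [MeasurableSpace V]
    [DiscreteMeasurableSpace V] (o : V) (τ : ℕ) (ω : Om V) (h : rset o τ ω = Finset.univ) :
    susc o ω ≤ (τ : ℕ∞) := by
  unfold susc
  refine iInf₂_le τ ?_
  intro v
  rw [← mem_rset, h]
  exact Finset.mem_univ v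

theorem nonasym (hB : TaskCntB) (hT : TaskCntT) (hCut : TaskCut) (hRev : TaskRev)
    (hWalk : TaskWalk) (hMgf : TaskMgf) (hWald : TaskWald) (hSmall : TaskSmall)
    (d : ℕ) (hd : 1 ≤ d) (lam : ℝ≥0) (hlam : 0 < lam) :
    ∃ C : ℝ, 0 < C ∧ ∀ ε : ℝ, 0 < ε → ∃ N : ℕ, ∀ (V : Type) [Fintype V] [DecidableEq V]
      [MeasurableSpace V] [DiscreteMeasurableSpace V] (G : SimpleGraph V) [DecidableRel G.Adj]
      (o : V), G.Connected → (∀ x, G.degree x ≤ d) → N ≤ Fintype.card V →
      (frog G lam) {ω | ¬ susc o ω ≤ (⌊C * Real.log (Fintype.card V) ^ 2⌋₊ : ℕ∞)} ≤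
        ENNReal.ofReal ε := by
  classical
  have hlam' : (0 : ℝ) < lam := by exact_mod_cast hlam
  have hd' : (1 : ℝ) ≤ d := by exact_mod_cast hd
  have hl2 : 0 < Real.log 2 := Real.log_pos (by norm_num)
  set Y : ℝ := (d + 1) * Real.log 2 with hY
  have hY0 : 0 < Y := by positivity
  set C3 : ℝ := 3 * d * Y / lam with hC3
  have hC30 : 0 < C3 := by positivity
  set z : ℝ≥0 := ⟨Real.exp (2 / (lam : ℝ) * (Y + 2)), (Real.exp_pos _).le⟩ with hz
  have hz1 : 1 ≤ z := by
    rw [← NNReal.coe_le_coe]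
    change (1 : ℝ) ≤ Real.exp (2 / (lam : ℝ) * (Y + 2))
    exact Real.one_le_exp (by positivity)
  have hzlog : Real.log (z : ℝ) = 2 / (lam : ℝ) * (Y + 2) := by
    change Real.log (Real.exp (2 / (lam : ℝ) * (Y + 2))) = _
    exact Real.log_exp _
  set k : ℕ := ⌈C3 * z⌉₊ with hk
  have hk' : C3 * z ≤ k := Nat.le_ceil _
  set aa : ℝ := max (21 * d / lam) (max (7 * C3) (140 * C3 / lam)) with haa
  have haa0 : 0 < aa := lt_of_lt_of_le (by positivity) (le_max_left _ _)
  have haa1 : 21 * d / lam ≤ aa := le_max_left _ _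
  have haa2 : 7 * C3 ≤ aa := (le_max_left _ _).trans (le_max_right _ _)
  have haa3 : 140 * C3 / lam ≤ aa := (le_max_right _ _).trans (le_max_right _ _)
  set κ : ℝ := 1 + Real.log (2 * d) / Real.log 2 with hκ
  have hl2d : 0 ≤ Real.log (2 * d) := Real.log_nonneg (by linarith)
  have hκ0 : 0 < κ := by positivity
  set C : ℝ := 4 ^ k * ((aa * κ) ^ 2 + (1 / Real.log 2) ^ 2) with hC
  refine ⟨C, by positivity, ?_⟩
  intro ε hε
  obtain ⟨m, hm1, hm2⟩ := main_lim (lam / (3 * d)) C3 (lam / 20) (by positivity) hC30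
    (by positivity) (ε / 2) (by positivity)
  set q : ℝ := ((d : ℝ)⁻¹) ^ m with hq
  have hq0 : 0 < q := by positivity
  have hq1 : q ≤ 1 := pow_le_one₀ (by positivity) (inv_le_one_of_one_le₀ hd')
  obtain ⟨N1, hN1⟩ := small_lim aa q (ε / 2) haa0 hq0 hq1 (by positivity) m hm1
  -- N2 : sqrt s / 7 ≥ m/2
  obtain ⟨N2, hN2⟩ := Filter.eventually_atTop.1
    ((Real.tendsto_log_atTop.comp tendsto_natCast_atTop_atTop).eventually_ge_atTop
      (7 * (m : ℝ) / 2 / aa))
  refine ⟨max (max N1 N2) 2, ?_⟩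
  intro V _ _ _ _ G _ o hG hdeg hN
  set n := Fintype.card V with hn
  have hnN1 : N1 ≤ n := le_trans (le_trans (le_max_left _ _) (le_max_left _ _)) hN
  have hnN2 : N2 ≤ n := le_trans (le_trans (le_max_right _ _) (le_max_left _ _)) hN
  have hn2 : 2 ≤ n := le_trans (le_max_right _ _) hN
  have hn2' : (2 : ℝ) ≤ n := by exact_mod_cast hn2
  have hpos : ∀ x, 0 < G.degree x := by
    intro x
    haveI : Nontrivial V := Fintype.one_lt_card_iff_nontrivial.1 (by omega)
    exact hG.preconnected.degree_pos_of_nontrivial x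
  set D : ℝ := Real.log (2 * (d * n)) with hD
  have hlogn : Real.log 2 ≤ Real.log n := Real.log_le_log (by norm_num) hn2'
  have hlogn0 : 0 < Real.log n := lt_of_lt_of_le hl2 hlogn
  have hDeq : D = Real.log (2 * d) + Real.log n := by
    rw [hD, ← mul_assoc, Real.log_mul (by positivity) (by positivity)]
  have hD0 : 0 < D := by rw [hDeq]; linarith
  have hDκ : D ≤ κ * Real.log n := by
    rw [hDeq, hκ, add_mul, one_mul, div_mul_eq_mul_div]
    have : Real.log (2 * d) ≤ Real.log (2 * d) * Real.log n / Real.log 2 := by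
      rw [le_div_iff₀ hl2]
      exact mul_le_mul_of_nonneg_left hlogn hl2d
    linarith
  set s : ℕ := ⌈(aa * D) ^ 2⌉₊ with hs
  have hs0 : (aa * D) ^ 2 ≤ s := Nat.le_ceil _
  have hs1 : 1 ≤ s := Nat.one_le_iff_ne_zero.2 (by
    rw [hs]
    exact (Nat.ceil_pos.2 (by positivity)).ne')
  have hrs : aa * D ≤ Real.sqrt s := by
    rw [← Real.sqrt_sq (by positivity : 0 ≤ aa * D)]
    exact Real.sqrt_le_sqrt hs0
  set τ := s * 4 ^ k with hτ
  have hτC : (τ : ℝ) ≤ C * Real.log n ^ 2 := by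
    have h1 : (s : ℝ) ≤ (aa * D) ^ 2 + 1 := (Nat.ceil_lt_add_one (by positivity)).le
    have h2 : (aa * D) ^ 2 ≤ (aa * κ) ^ 2 * Real.log n ^ 2 := by
      have h3 : aa * D ≤ aa * κ * Real.log n := by
        rw [mul_assoc]; exact mul_le_mul_of_nonneg_left hDκ haa0.le
      calc (aa * D) ^ 2 ≤ (aa * κ * Real.log n) ^ 2 := pow_le_pow_left₀ (by positivity) h3 2
        _ = _ := by ring
    have h4 : (1 : ℝ) ≤ (1 / Real.log 2) ^ 2 * Real.log n ^ 2 := by
      rw [← mul_pow]
      have : (1 : ℝ) ≤ 1 / Real.log 2 * Real.log n := by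
        rw [one_div, ← div_eq_inv_mul, le_div_iff₀ hl2]; linarith
      exact one_le_pow₀ this
    have h5 : (s : ℝ) ≤ ((aa * κ) ^ 2 + (1 / Real.log 2) ^ 2) * Real.log n ^ 2 := by
      rw [add_mul]; linarith
    rw [hτ, hC]
    push_cast
    calc (s : ℝ) * 4 ^ k ≤ ((aa * κ) ^ 2 + (1 / Real.log 2) ^ 2) * Real.log n ^ 2 * 4 ^ k :=
          mul_le_mul_of_nonneg_right h5 (by positivity)
      _ = _ := by ring
  have hτf : τ ≤ ⌊C * Real.log n ^ 2⌋₊ := Nat.le_floor hτC
  have hub := union_bound G hB hT hCut hRev hWalk hMgf hWald hG hpos d hd hdeg o lam hlam s k m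
    hs1 C3 hC30 z hz1 (by
      -- c1
      rw [← hn, ← hD]
      have h1 : 21 * d / lam * D ≤ Real.sqrt s :=
        (mul_le_mul_of_nonneg_right haa1 hD0.le).trans hrs
      have h2 : lam / (3 * d) * (Real.sqrt s / 7) ≥ lam / (3 * d) * (21 * d / lam * D / 7) :=
        mul_le_mul_of_nonneg_left (by linarith) (by positivity)
      have h3 : (lam : ℝ) / (3 * d) * (21 * d / lam * D / 7) = D := by
        field_simp; norm_num
      linarith) (by
      -- c2
      have h3 : (lam : ℝ) / (3 * d) * C3 = Y := by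
        rw [hC3]; field_simp
      rw [h3]) (by
      -- c3
      rw [← hn, ← hD]
      exact (mul_le_mul_of_nonneg_right haa2 hD0.le).trans hrs) hk' (by
      rw [hzlog]) (by
      -- c5
      rw [← hn, ← hD]
      have h1 : 140 * C3 / lam * D ≤ Real.sqrt s :=
        (mul_le_mul_of_nonneg_right haa3 hD0.le).trans hrs
      have h2 : (lam : ℝ) / 20 * (140 * C3 / lam * D / (7 * C3)) ≤ lam / 20 * (Real.sqrt s / (7 * C3)) :=
        mul_le_mul_of_nonneg_left (div_le_div_of_nonneg_right h1 (by positivity)) (by positivity)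
      have h3 : (lam : ℝ) / 20 * (140 * C3 / lam * D / (7 * C3)) = D := by
        field_simp; norm_num
      linarith)
  have hσ : min (Real.sqrt s / 7) ((m : ℝ) / 2) = (m : ℝ) / 2 := by
    apply min_eq_right
    have h1 := hN2 n hnN2
    simp only [Function.comp] at h1
    have h2 : 7 * (m : ℝ) / 2 ≤ Real.log n * aa := by
      rwa [div_le_iff₀ haa0] at h1
    have h3 : Real.log n ≤ D := by rw [hDeq]; linarith
    have h4 : aa * Real.log n ≤ aa * D := mul_le_mul_of_nonneg_left h3 haa0.le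
    have h5 : Real.log n * aa = aa * Real.log n := mul_comm _ _
    linarith
  rw [hσ] at hub
  have hsmall : ∑ A ∈ Finset.univ.filter (fun A : Finset V => A.card ≤ m ∧ A ≠ Finset.univ),
      stay G A (s * 4 ^ k) o ≤ ε / 2 := by
    have h1 : ∀ A ∈ Finset.univ.filter (fun A : Finset V => A.card ≤ m ∧ A ≠ Finset.univ),
        stay G A (s * 4 ^ k) o ≤ (1 - q) ^ (τ / m) := by
      intro A hA
      rw [Finset.mem_filter] at hA
      have h2 := hSmall V G d hG hpos hdeg A m (τ / m) o hA.2.1 hA.2.2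
      refine le_trans ?_ h2
      exact stay_anti G A o (Nat.div_mul_le_self τ m)
    refine (Finset.sum_le_card_nsmul _ _ _ h1).trans ?_
    rw [nsmul_eq_mul]
    have h3 : ((Finset.univ.filter (fun A : Finset V => A.card ≤ m ∧ A ≠ Finset.univ)).card : ℝ)
        ≤ ((n : ℝ) + 1) ^ m := by
      have h4 : (Finset.univ.filter (fun A : Finset V => A.card ≤ m ∧ A ≠ Finset.univ)).card ≤
          (Finset.univ.filter (fun A : Finset V => A.card ≤ m)).card := by
        apply Finset.card_le_card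
        intro A hA
        rw [Finset.mem_filter] at hA ⊢
        exact ⟨hA.1, hA.2.1⟩
      have h5 := h4.trans (card_small V m)
      exact_mod_cast h5
    have h6 : (aa * Real.log n) ^ 2 / m - 1 ≤ ((τ / m : ℕ) : ℝ) := by
      have hm0 : (0 : ℝ) < m := by exact_mod_cast hm1
      have h7 : (τ : ℝ) / m - 1 ≤ ((τ / m : ℕ) : ℝ) := by
        have := Nat.lt_floor_add_one ((τ : ℝ) / m)
        rw [Nat.floor_div_eq_div] at this
        linarith
      have h8 : (aa * Real.log n) ^ 2 ≤ τ := by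
        have h9 : (aa * Real.log n) ^ 2 ≤ (aa * D) ^ 2 := by
          apply pow_le_pow_left₀ (by positivity)
          apply mul_le_mul_of_nonneg_left _ haa0.le
          rw [hDeq]; linarith
        have h10 : (s : ℝ) ≤ τ := by
          exact_mod_cast Nat.le_mul_of_pos_right s (by positivity)
        linarith
      have h11 : (aa * Real.log n) ^ 2 / m ≤ (τ : ℝ) / m := div_le_div_of_nonneg_right h8 hm0.le
      linarith
    refine le_trans ?_ (hN1 n hnN1 (τ / m) h6)
    apply mul_le_mul_of_nonneg_right h3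
    exact pow_nonneg (by linarith) _
  have hsub : {ω | ¬ susc o ω ≤ (⌊C * Real.log n ^ 2⌋₊ : ℕ∞)} ⊆
      {ω | rset o (s * 4 ^ k) ω ≠ Finset.univ} := by
    intro ω hω hcon
    apply hω
    refine (susc_le V o (s * 4 ^ k) ω hcon).trans ?_
    exact_mod_cast hτf
  refine (measure_mono hsub).trans (hub.trans ?_)
  rw [← ENNReal.ofReal_add (Finset.sum_nonneg fun A _ => stay_nonneg G A _ o) (by positivity),
    ← ENNReal.ofReal_add (add_nonneg (Finset.sum_nonneg fun A _ => stay_nonneg G A _ o)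
      (by positivity)) (by positivity)]
  apply ENNReal.ofReal_le_ofReal
  linarith

theorem main (hB : TaskCntB) (hT : TaskCntT) (hCut : TaskCut) (hRev : TaskRev)
    (hWalk : TaskWalk) (hMgf : TaskMgf) (hWald : TaskWald) (hSmall : TaskSmall) : Main := by
  intro d lam hlam
  obtain ⟨C, hC, h⟩ := nonasym hB hT hCut hRev hWalk hMgf hWald hSmall (d + 1) (by omega) lam hlam
  refine ⟨C, hC, ?_⟩
  intro V _ _ _ _ G _ o hG hdeg hcard
  have hbad : Tendsto (fun n => (frog (G n) lam)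
      {ω | ¬ susc (o n) ω ≤ (⌊C * Real.log (Fintype.card (V n)) ^ 2⌋₊ : ℕ∞)}) atTop (𝓝 0) := by
    rw [ENNReal.tendsto_nhds_zero]
    intro ε hε
    by_cases hεtop : ε = ⊤
    · exact Filter.Eventually.of_forall fun n => by rw [hεtop]; exact le_top
    obtain ⟨N, hN⟩ := h ε.toReal (ENNReal.toReal_pos hε.ne' hεtop)
    filter_upwards [hcard.eventually_ge_atTop N] with n hn
    have := hN (V n) (G n) (o n) (hG n) (fun x => (hdeg n x).trans (Nat.le_succ d)) hn
    rwa [ENNReal.ofReal_toReal hεtop] at this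
  have hlow : ∀ n, 1 - (frog (G n) lam)
      {ω | ¬ susc (o n) ω ≤ (⌊C * Real.log (Fintype.card (V n)) ^ 2⌋₊ : ℕ∞)} ≤
      (frog (G n) lam)
        {ω | susc (o n) ω ≤ (⌊C * Real.log (Fintype.card (V n)) ^ 2⌋₊ : ℕ∞)} := by
    intro n
    rw [tsub_le_iff_right]
    calc (1 : ℝ≥0∞) = (frog (G n) lam) Set.univ := measure_univ.symm
      _ ≤ (frog (G n) lam) ({ω | susc (o n) ω ≤ (⌊C * Real.log (Fintype.card (V n)) ^ 2⌋₊ : ℕ∞)} ∪
          {ω | ¬ susc (o n) ω ≤ (⌊C * Real.log (Fintype.card (V n)) ^ 2⌋₊ : ℕ∞)}) := by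
            apply measure_mono
            intro ω _
            exact em _
      _ ≤ _ := measure_union_le _ _
  have hlim : Tendsto (fun n => 1 - (frog (G n) lam)
      {ω | ¬ susc (o n) ω ≤ (⌊C * Real.log (Fintype.card (V n)) ^ 2⌋₊ : ℕ∞)}) atTop (𝓝 1) := by
    have := ENNReal.Tendsto.sub (tendsto_const_nhds (x := (1 : ℝ≥0∞)) (f := atTop)) hbad
      (Or.inl ENNReal.one_ne_top)
    simpa using this
  exact tendsto_of_tendsto_of_tendsto_of_le_of_le hlim tendsto_const_nhds hlow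
    (fun n => prob_le_one)

end Pool.Agent.H102R3.FRA
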