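import Mathlib

/-! Frog model on bounded degree graphs: definitions and task statements
(MP_82094e_pr, helper102). -/

open MeasureTheory ProbabilityTheory Filter Topology
open scoped ENNReal NNReal

namespace Pool.Agent.H102R3.FR

/-! ## Graph quantities -/

section Graph

variable {V : Type} [Fintype V] [DecidableEq V] (G : SimpleGraph V) [DecidableRel G.Adj]

/-- `stay G A j x` is the probability that simple random walk started at `x` is in `A` at all
times `0, 1, …, j`. -/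
noncomputable def stay (A : Finset V) : ℕ → V → ℝ
  | 0, x => if x ∈ A then 1 else 0
  | j + 1, x => if x ∈ A then (∑ y ∈ G.neighborFinset x, stay A j y) / (G.degree x : ℝ) else 0

/-- `esc G A j = ∑_{x ∈ A} deg x · P_x(exit A by time j)`. -/
noncomputable def esc (A : Finset V) (j : ℕ) : ℝ :=
  ∑ x ∈ A, (G.degree x : ℝ) * (1 - stay G A j x)

/-- Number of boundary edges of `B` (as ordered pairs, first endpoint in `B`). -/
def bd (B : Finset V) : ℕ :=
  ((Finset.univ : Finset (V × V)).filter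
    (fun e => e.1 ∈ B ∧ e.2 ∉ B ∧ G.Adj e.1 e.2)).card

end Graph

/-! ## The frog model -/

section Model

variable {V : Type} [Fintype V] [DecidableEq V] [MeasurableSpace V] [DiscreteMeasurableSpace V]
  (G : SimpleGraph V) [DecidableRel G.Adj]

/-- The uniform distribution on the neighbours of `x` (point mass at `x` if there are none). -/
noncomputable def nbr (x : V) : Measure V :=
  (if h : (G.neighborFinset x).Nonempty then PMF.uniformOfFinset _ h else PMF.pure x).toMeasure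

instance (x : V) : IsProbabilityMeasure (nbr G x) := by
  unfold nbr; infer_instance

/-- The trajectory from `v` which at time `k` uses the choice `c (k, x)` if it is at `x`. -/
def walk (c : ℕ × V → V) (v : V) : ℕ → V
  | 0 => v
  | k + 1 => c (k, walk c v k)

/-- Law of the choices of one walk: all choices are independent, `c (k, x)` is a uniform
neighbour of `x`. -/
noncomputable def stepLaw : Measure (ℕ × V → V) :=
  Measure.infinitePi (fun j : ℕ × V => nbr G j.2)

instance : IsProbabilityMeasure (stepLaw G) := by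
  unfold stepLaw; infer_instance

/-- Law of the data at one vertex: a Poisson number of sleeping particles, and independent
choices for every potential particle. -/
noncomputable def vlaw (lam : ℝ≥0) : Measure (ℕ × (ℕ × ℕ × V → V)) :=
  (poissonMeasure lam).prod (Measure.infinitePi (fun j : ℕ × ℕ × V => nbr G j.2.2))

instance (lam : ℝ≥0) : IsProbabilityMeasure (vlaw G lam) := by
  unfold vlaw; infer_instance

/-- The sample space: for every vertex the number of sleeping particles and the choices of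
the particles, and the choices of the extra particle at the origin. -/
abbrev Om (V : Type) := (V → ℕ × (ℕ × ℕ × V → V)) × (ℕ × V → V)

/-- The law of the frog model. -/
noncomputable def frog (lam : ℝ≥0) : Measure (Om V) :=
  (Measure.pi (fun _ : V => vlaw G lam)).prod (stepLaw G)

instance (lam : ℝ≥0) : IsProbabilityMeasure (frog G lam) := by
  unfold frog; infer_instance

/-- The trajectory of particle number `i` of vertex `v`. -/
def ptraj (w : V → ℕ × (ℕ × ℕ × V → V)) (v : V) (i : ℕ) : ℕ → V :=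
  walk (fun p => (w v).2 (i, p)) v

/-- The vertices visited by active particles when the lifetime is `τ`. -/
inductive Visited (o : V) (τ : ℕ) (ω : Om V) : V → Prop
  | extra (k : ℕ) (hk : k ≤ τ) : Visited o τ ω (walk ω.2 o k)
  | step (v : V) (hv : Visited o τ ω v) (i : ℕ) (hi : i < (ω.1 v).1) (k : ℕ) (hk : k ≤ τ) :
      Visited o τ ω (ptraj ω.1 v i k)

open Classical in
/-- The visited set as a finset. -/
noncomputable def rset (o : V) (τ : ℕ) (ω : Om V) : Finset V :=
  Finset.univ.filter (fun v => Visited o τ ω v)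

/-- The susceptibility: the least lifetime for which all vertices are visited. -/
noncomputable def susc (o : V) (ω : Om V) : ℕ∞ :=
  ⨅ (τ : ℕ) (_ : ∀ v : V, Visited o τ ω v), (τ : ℕ∞)

end Model

/-! ## Tasks -/

/-- TASK CUT. -/
def TaskCut : Prop :=
  ∀ (V : Type) [Fintype V] [DecidableEq V] (G : SimpleGraph V) [DecidableRel G.Adj]
    (_ : ∀ x, 0 < G.degree x) (A : Finset V) (s : ℕ), 1 ≤ s →
    ∃ Θ ⊆ A, (∀ x ∈ Θ, stay G A s x ≤ 1 / 2) ∧
      Real.sqrt s * (bd G (A \ Θ) : ℝ) ≤ 7 * esc G A s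

/-- TASK REV. -/
def TaskRev : Prop :=
  ∀ (V : Type) [Fintype V] [DecidableEq V] (G : SimpleGraph V) [DecidableRel G.Adj]
    (_ : ∀ x, 0 < G.degree x) (A Θ : Finset V) (s k : ℕ), 1 ≤ s → Θ ⊆ A →
    (∀ x ∈ Θ, stay G A s x ≤ 1 / 2) →
    (k : ℝ) * ∑ x ∈ Θ, stay G A (s * 4 ^ k) x ≤ esc G A (s * 4 ^ k)

/-- TASK CNB. -/
def TaskCntB : Prop :=
  ∀ (V : Type) [Fintype V] [DecidableEq V] (G : SimpleGraph V) [DecidableRel G.Adj] (d : ℕ),
    G.Connected → 1 ≤ d → (∀ x, G.degree x ≤ d) →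
    ∑ B : Finset V, (((d * Fintype.card V : ℕ) : ℝ)⁻¹) ^ (bd G B) ≤ 4

/-- TASK CNT: for a fixed set `B` and roots. -/
def TaskCntT : Prop :=
  ∀ (V : Type) [Fintype V] [DecidableEq V] (G : SimpleGraph V) [DecidableRel G.Adj] (d : ℕ),
    (∀ x, G.degree x ≤ d) → ∀ (o : V) (B : Finset V) (F : Finset (Finset V)),
    (∀ Θ ∈ F, Disjoint Θ B ∧ o ∈ Θ ∪ B ∧ (G.induce ((Θ ∪ B : Finset V) : Set V)).Preconnected) →
    ∑ Θ ∈ F, ((2 : ℝ)⁻¹) ^ ((d + 1) * Θ.card) ≤ 2 ^ (bd G B + 1)

/-- TASK WALK. -/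
def TaskWalk : Prop :=
  ∀ (V : Type) [Fintype V] [DecidableEq V] [MeasurableSpace V] [DiscreteMeasurableSpace V]
    (G : SimpleGraph V) [DecidableRel G.Adj] (_ : ∀ x, 0 < G.degree x) (A : Finset V) (j : ℕ)
    (v : V), (stepLaw G) {c | ∀ k ≤ j, walk c v k ∈ A} = ENNReal.ofReal (stay G A j v)

/-- TASK PART. -/
def TaskPart : Prop :=
  ∀ (V : Type) [Fintype V] [DecidableEq V] [MeasurableSpace V] [DiscreteMeasurableSpace V]
    (G : SimpleGraph V) [DecidableRel G.Adj] (_ : ∀ x, 0 < G.degree x) (A : Finset V) (j : ℕ)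
    (v : V) (lam z : ℝ≥0),
    ∫⁻ w, (z : ℝ≥0∞) ^ w.1 * Set.indicator
      {w : ℕ × (ℕ × ℕ × V → V) | ∀ i < w.1, ∀ k ≤ j, walk (fun p => w.2 (i, p)) v k ∈ A} 1 w
      ∂(vlaw G lam) = ENNReal.ofReal (Real.exp (lam * (z * stay G A j v - 1)))

/-- TASK MGF. -/
def TaskMgf : Prop :=
  ∀ (V : Type) [Fintype V] [DecidableEq V] [MeasurableSpace V] [DiscreteMeasurableSpace V]
    (G : SimpleGraph V) [DecidableRel G.Adj] (_ : ∀ x, 0 < G.degree x) (A Θ : Finset V) (j : ℕ)
    (lam z : ℝ≥0) (r : ℝ), 1 ≤ z → 0 ≤ r →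
    (Measure.pi (fun _ : V => vlaw G lam))
      {w | (∀ v ∈ Θ, ∀ i < (w v).1, ∀ k ≤ j, ptraj w v i k ∈ A) ∧
        r ≤ ∑ v ∈ Θ, ((w v).1 : ℝ)} ≤
      ENNReal.ofReal (Real.exp (lam * ∑ v ∈ Θ, (z * stay G A j v - 1) - r * Real.log z))

/-- TASK WALD. -/
def TaskWald : Prop :=
  ∀ (V : Type) [Fintype V] [DecidableEq V] [MeasurableSpace V] [DiscreteMeasurableSpace V]
    (G : SimpleGraph V) [DecidableRel G.Adj] (B : Finset V) (o : V) (τ : ℕ)
    (lam : ℝ≥0) (r : ℝ), 
    (frog G lam) {ω | r ≤ ((rset o τ ω \ B).card : ℝ) ∧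
        ∑ v ∈ rset o τ ω \ B, ((ω.1 v).1 : ℝ) < lam * ((rset o τ ω \ B).card : ℝ) / 2} ≤
      ENNReal.ofReal (Real.exp (-(lam / 10) * r))

/-- TASK SMALL. -/
def TaskSmall : Prop :=
  ∀ (V : Type) [Fintype V] [DecidableEq V] (G : SimpleGraph V) [DecidableRel G.Adj] (d : ℕ),
    G.Connected → (∀ x, 0 < G.degree x) → (∀ x, G.degree x ≤ d) →
    ∀ (A : Finset V) (m j : ℕ) (x : V), A.card ≤ m → A ≠ Finset.univ →
      stay G A (j * m) x ≤ (1 - ((d : ℝ)⁻¹) ^ m) ^ j

/-- The main statement. -/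
def Main : Prop :=
  ∀ (d : ℕ) (lam : ℝ≥0), 0 < lam → ∃ C : ℝ, 0 < C ∧
    ∀ (V : ℕ → Type) [∀ n, Fintype (V n)] [∀ n, DecidableEq (V n)]
      [∀ n, MeasurableSpace (V n)] [∀ n, DiscreteMeasurableSpace (V n)]
      (G : ∀ n, SimpleGraph (V n)) [∀ n, DecidableRel (G n).Adj] (o : ∀ n, V n),
      (∀ n, (G n).Connected) → (∀ n x, (G n).degree x ≤ d) →
      Tendsto (fun n => Fintype.card (V n)) atTop atTop →
      Tendsto (fun n => (frog (G n) lam)
        {ω | susc (o n) ω ≤ (⌊C * Real.log (Fintype.card (V n)) ^ 2⌋₊ : ℕ∞)}) atTop (𝓝 1)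

end Pool.Agent.H102R3.FR
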