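import Pool.Agent.H102R3.FR.Core

open MeasureTheory ProbabilityTheory Filter Topology
open scoped ENNReal NNReal

namespace Pool.Agent.H102R3.FRA

open Pool.Agent.H102R3.FR

variable {V : Type} [Fintype V] [DecidableEq V] [MeasurableSpace V] [DiscreteMeasurableSpace V]
  (G : SimpleGraph V) [DecidableRel G.Adj]

theorem frog_fst (lam : ℝ≥0) (X : Set (V → ℕ × (ℕ × ℕ × V → V))) :
    (frog G lam) {ω | ω.1 ∈ X} = (Measure.pi (fun _ : V => vlaw G lam)) X := by
  have : {ω : Om V | ω.1 ∈ X} = X ×ˢ Set.univ := by ext ω; simp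
  rw [this, frog, Measure.prod_prod]
  simp

theorem frog_snd (lam : ℝ≥0) (X : Set (ℕ × V → V)) :
    (frog G lam) {ω | ω.2 ∈ X} = stepLaw G X := by
  have : {ω : Om V | ω.2 ∈ X} = Set.univ ×ˢ X := by ext ω; simp
  rw [this, frog, Measure.prod_prod]
  simp

open Classical in
theorem union_bound (hB : TaskCntB) (hT : TaskCntT) (hCut : TaskCut) (hRev : TaskRev)
    (hWalk : TaskWalk) (hMgf : TaskMgf) (hWald : TaskWald)
    (hG : G.Connected) (hpos : ∀ x, 0 < G.degree x) (d : ℕ) (hd : 1 ≤ d)
    (hdeg : ∀ x, G.degree x ≤ d) (o : V) (lam : ℝ≥0) (hlam : 0 < lam)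
    (s k m : ℕ) (hs : 1 ≤ s) (C3 : ℝ) (hC3 : 0 < C3) (z : ℝ≥0) (hz : 1 ≤ z)
    (c1 : Real.log (2 * (d * Fintype.card V)) ≤ lam / (3 * d) * (Real.sqrt s / 7))
    (c2 : (d + 1) * Real.log 2 ≤ lam / (3 * d) * C3)
    (c3 : 7 * C3 * Real.log (2 * (d * Fintype.card V)) ≤ Real.sqrt s)
    (c4 : C3 * z ≤ k) (c4' : 2 / (lam : ℝ) * ((d + 1) * Real.log 2 + 2) ≤ Real.log z)
    (c5 : Real.log (2 * (d * Fintype.card V)) ≤ lam / 20 * (Real.sqrt s / (7 * C3))) :
    (frog G lam) {ω | rset o (s * 4 ^ k) ω ≠ Finset.univ} ≤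
      ENNReal.ofReal (∑ A ∈ Finset.univ.filter (fun A : Finset V => A.card ≤ m ∧ A ≠ Finset.univ),
          stay G A (s * 4 ^ k) o) +
      ENNReal.ofReal (8 * (Real.exp (-(lam / (3 * d)) * min (Real.sqrt s / 7) ((m : ℝ) / 2)) +
        Real.exp (-(min (Real.sqrt s / 7) ((m : ℝ) / 2) / C3)))) +
      ENNReal.ofReal (4 * Real.exp (-(lam / 20) * (min (Real.sqrt s / 7) ((m : ℝ) / 2) / C3))) := by
  set τ := s * 4 ^ k with hτ
  have hsτ : s ≤ τ := Nat.le_mul_of_pos_right _ (by positivity)
  set σ := min (Real.sqrt s / 7) ((m : ℝ) / 2) with hσdef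
  have hcard : 1 ≤ Fintype.card V := Fintype.card_pos_iff.2 ⟨o⟩
  have hlam' : (0 : ℝ) < lam := by exact_mod_cast hlam
  have hσ0 : 0 ≤ σ := le_min (by positivity) (by positivity)
  -- the chosen thin parts
  choose! Th hTh using fun A => hCut V G hpos A s hs
  have hTh1 : ∀ A, Th A ⊆ A := fun A => (hTh A).1
  have hTh2 : ∀ A, ∀ x ∈ Th A, stay G A s x ≤ 1 / 2 := fun A => (hTh A).2.1
  have hTh3 : ∀ A, Real.sqrt s * (bd G (A \ Th A) : ℝ) ≤ 7 * esc G A s := fun A => (hTh A).2.2
  have hbS : ∀ A, Real.sqrt s * (bd G (A \ Th A) : ℝ) ≤ 7 * esc G A τ := fun A =>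
    (hTh3 A).trans (mul_le_mul_of_nonneg_left (esc_mono G A hsτ) (by norm_num))
  -- events
  let Sm : Finset (Finset V) := Finset.univ.filter (fun A => A.card ≤ m ∧ A ≠ Finset.univ)
  let F : Finset (Finset V) := Finset.univ.filter (fun A => o ∈ A ∧
    (G.induce ((A : Finset V) : Set V)).Preconnected ∧ A ≠ Finset.univ ∧ m < A.card)
  let ES : Finset V → Set (Om V) := fun A => {ω | ω.2 ∈ {c | ∀ k ≤ τ, walk c o k ∈ A}}
  let E1 : Finset V → Set (V → ℕ × (ℕ × ℕ × V → V)) := fun A =>
    {w | (∀ v ∈ A, ∀ i < (w v).1, ∀ k ≤ τ, ptraj w v i k ∈ A) ∧ (0 : ℝ) ≤ ∑ v ∈ A, ((w v).1 : ℝ)}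
  let E2 : Finset V → Set (V → ℕ × (ℕ × ℕ × V → V)) := fun A =>
    {w | (∀ v ∈ Th A, ∀ i < (w v).1, ∀ k ≤ τ, ptraj w v i k ∈ A) ∧
      (lam * (Th A).card / 2 : ℝ) ≤ ∑ v ∈ Th A, ((w v).1 : ℝ)}
  let rB : Finset V → ℝ := fun B => max (σ / C3) (Real.sqrt s * (bd G B : ℝ) / (7 * C3))
  let E3 : Finset V → Set (Om V) := fun B => {ω | rB B ≤ ((rset o τ ω \ B).card : ℝ) ∧
        ∑ v ∈ rset o τ ω \ B, ((ω.1 v).1 : ℝ) < lam * ((rset o τ ω \ B).card : ℝ) / 2}
  let E12 : Finset V → Set (Om V) := fun A =>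
    if C3 * (Th A).card ≤ esc G A τ then {ω | ω.1 ∈ E1 A} else {ω | ω.1 ∈ E2 A}
  -- inclusion
  have hincl : {ω | rset o τ ω ≠ Finset.univ} ⊆
      ({ω | Good G ω}ᶜ ∪ ((⋃ A ∈ Sm, ES A) ∪ (⋃ A ∈ F, E12 A))) ∪ (⋃ B ∈ (Finset.univ : Finset (Finset V)), E3 B) := by
    intro ω hω
    simp only [Set.mem_setOf_eq] at hω
    by_cases hg : Good G ω
    swap
    · exact Or.inl (Or.inl hg)
    set R := rset o τ ω with hR
    by_cases hm : R.card ≤ m
    · left; right; left
      rw [Set.mem_iUnion₂]
      refine ⟨R, by simp [Sm, hm, hω], ?_⟩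
      intro k hk
      rw [hR, mem_rset]
      exact Visited.extra k hk
    · push Not at hm
      have hRF : R ∈ F := by
        simp only [F, Finset.mem_filter, Finset.mem_univ, true_and]
        exact ⟨o_mem o τ ω, rset_conn G o τ ω hg, hω, hm⟩
      have hclosed : ∀ v ∈ R, ∀ i < (ω.1 v).1, ∀ k ≤ τ, ptraj ω.1 v i k ∈ R := by
        intro v hv i hi k hk
        rw [hR, mem_rset] at hv ⊢
        exact Visited.step v hv i hi k hk
      have hlow : σ ≤ esc G R τ :=
        esc_lower G hG hpos R (Th R) s τ m hsτ hω hm (hTh1 R) (hTh2 R) (hTh3 R)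
      by_cases hc : C3 * (Th R).card ≤ esc G R τ
      · left; right; right
        rw [Set.mem_iUnion₂]
        refine ⟨R, hRF, ?_⟩
        simp only [E12, if_pos hc, E1, Set.mem_setOf_eq]
        exact ⟨hclosed, by positivity⟩
      · push Not at hc
        by_cases hN : (lam * (Th R).card / 2 : ℝ) ≤ ∑ v ∈ Th R, ((ω.1 v).1 : ℝ)
        · left; right; right
          rw [Set.mem_iUnion₂]
          refine ⟨R, hRF, ?_⟩
          simp only [E12, if_neg (not_le.2 hc), E2, Set.mem_setOf_eq]
          exact ⟨fun v hv => hclosed v (hTh1 R hv), hN⟩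
        · push Not at hN
          right
          rw [Set.mem_iUnion₂]
          refine ⟨R \ Th R, Finset.mem_univ _, ?_⟩
          have h1 : R \ (R \ Th R) = Th R := by
            rw [sdiff_sdiff_right_self]
            exact inf_eq_right.2 (hTh1 R)
          simp only [E3, Set.mem_setOf_eq]
          rw [← hR, h1]
          refine ⟨?_, hN⟩
          apply max_le
          · rw [div_le_iff₀ hC3]; linarith
          · rw [div_le_iff₀ (by positivity)]
            have := hbS R
            nlinarith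
  -- bounds
  have hgood : (frog G lam) {ω | Good G ω}ᶜ = 0 := good_ae G hpos lam
  have hES : (frog G lam) (⋃ A ∈ Sm, ES A) ≤ ENNReal.ofReal (∑ A ∈ Sm, stay G A τ o) := by
    refine (measure_biUnion_finset_le Sm ES).trans ?_
    rw [ENNReal.ofReal_sum_of_nonneg fun A _ => stay_nonneg G A τ o]
    apply Finset.sum_le_sum
    intro A _
    rw [← hWalk V G hpos A τ o]
    exact (frog_snd G lam _).le
  have hE12 : (frog G lam) (⋃ A ∈ F, E12 A) ≤
      ENNReal.ofReal (8 * (Real.exp (-(lam / (3 * d)) * σ) + Real.exp (-(σ / C3)))) := by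
    refine (measure_biUnion_finset_le F E12).trans ?_
    have hA : ∀ A ∈ F, (frog G lam) (E12 A) ≤
        ENNReal.ofReal ((Real.exp (-(lam / (3 * d)) * σ) + Real.exp (-(σ / C3))) *
          wt (Fintype.card V) d (bd G (A \ Th A)) (Th A).card) := by
      intro A hA
      simp only [F, Finset.mem_filter, Finset.mem_univ, true_and] at hA
      obtain ⟨hoA, hconn, hne, hmA⟩ := hA
      have hlow : σ ≤ esc G A τ :=
        esc_lower G hG hpos A (Th A) s τ m hsτ hne hmA (hTh1 A) (hTh2 A) (hTh3 A)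
      have hw := wt_eq (Fintype.card V) d (bd G (A \ Th A)) (Th A).card hcard hd
      have hw0 := wt_nonneg (Fintype.card V) d (bd G (A \ Th A)) (Th A).card
      by_cases hc : C3 * (Th A).card ≤ esc G A τ
      · simp only [E12, if_pos hc]
        rw [frog_fst]
        refine (hMgf V G hpos A A τ lam 1 0 le_rfl le_rfl).trans ?_
        apply ENNReal.ofReal_le_ofReal
        have h1 := case1 G d hd hdeg A τ (bd G (A \ Th A)) (Th A).card lam hlam' C3 σ
          (Real.log (2 * (d * Fintype.card V))) ((d + 1) * Real.log 2) (Real.sqrt s)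
          hlow (hbS A) hc c1 c2
        calc Real.exp (↑lam * ∑ v ∈ A, (((1 : ℝ≥0) : ℝ) * stay G A τ v - 1) - 0 * Real.log ((1 : ℝ≥0) : ℝ))
            ≤ Real.exp (-(lam / (3 * d)) * σ - (bd G (A \ Th A)) * (Real.log (2 * (d * Fintype.card V)))
              - (Th A).card * ((d + 1) * Real.log 2)) := by
              apply Real.exp_le_exp.2
              rw [zero_mul, sub_zero, NNReal.coe_one]
              exact h1
          _ = Real.exp (-(lam / (3 * d)) * σ) * wt (Fintype.card V) d (bd G (A \ Th A)) (Th A).card := by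
              rw [hw, ← Real.exp_add]
              congr 1; ring
          _ ≤ _ := by
              apply mul_le_mul_of_nonneg_right _ hw0
              have := Real.exp_pos (-(σ / C3))
              linarith
      · simp only [E12, if_neg hc]
        push Not at hc
        rw [frog_fst]
        refine (hMgf V G hpos A (Th A) τ lam z (lam * (Th A).card / 2) hz (by positivity)).trans ?_
        apply ENNReal.ofReal_le_ofReal
        have hrev := hRev V G hpos A (Th A) s k hs (hTh1 A) (hTh2 A)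
        have h1 := case2a G A (Th A) τ (bd G (A \ Th A)) k lam hlam' C3 σ
          (Real.log (2 * (d * Fintype.card V))) ((d + 1) * Real.log 2) (Real.sqrt s) z hC3
          (by exact_mod_cast hz) (by positivity)
          hlow (hbS A) hc.le hrev c4 c4' c3
        calc Real.exp (↑lam * ∑ v ∈ Th A, ((z : ℝ) * stay G A τ v - 1) -
              lam * (Th A).card / 2 * Real.log (z : ℝ))
            ≤ Real.exp (-(σ / C3) - (bd G (A \ Th A)) * (Real.log (2 * (d * Fintype.card V)))
              - (Th A).card * ((d + 1) * Real.log 2)) := by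
              apply Real.exp_le_exp.2
              exact h1
          _ = Real.exp (-(σ / C3)) * wt (Fintype.card V) d (bd G (A \ Th A)) (Th A).card := by
              rw [hw, ← Real.exp_add]
              congr 1; ring
          _ ≤ _ := by
              apply mul_le_mul_of_nonneg_right _ hw0
              have := Real.exp_pos (-(lam / (3 * d)) * σ)
              linarith
    refine (Finset.sum_le_sum hA).trans ?_
    rw [← ENNReal.ofReal_sum_of_nonneg]
    · apply ENNReal.ofReal_le_ofReal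
      rw [← Finset.mul_sum]
      have h8 := sum_wt G hB hT hG d hd hdeg o Th hTh1 F (by
        intro A hA
        simp only [F, Finset.mem_filter, Finset.mem_univ, true_and] at hA
        exact ⟨hA.1, hA.2.1⟩)
      rw [mul_comm (8 : ℝ)]
      exact mul_le_mul_of_nonneg_left h8 (by positivity)
    · intro A _
      exact mul_nonneg (by positivity) (wt_nonneg _ _ _ _)
  have hE3 : (frog G lam) (⋃ B ∈ (Finset.univ : Finset (Finset V)), E3 B) ≤
      ENNReal.ofReal (4 * Real.exp (-(lam / 20) * (σ / C3))) := by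
    refine (measure_biUnion_finset_le _ E3).trans ?_
    have hA : ∀ B ∈ (Finset.univ : Finset (Finset V)), (frog G lam) (E3 B) ≤
        ENNReal.ofReal (Real.exp (-(lam / 20) * (σ / C3)) *
          (((d * Fintype.card V : ℕ) : ℝ)⁻¹) ^ (bd G B)) := by
      intro B _
      refine (hWald V G B o τ lam (rB B)).trans ?_
      apply ENNReal.ofReal_le_ofReal
      have hdn : (0 : ℝ) < ((d * Fintype.card V : ℕ) : ℝ) := by
        have : 0 < d * Fintype.card V := by positivity
        exact_mod_cast this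
      have hL : Real.log ((d * Fintype.card V : ℕ) : ℝ) ≤ lam / 20 * (Real.sqrt s / (7 * C3)) := by
        refine le_trans (Real.log_le_log hdn ?_) c5
        push_cast
        push_cast at hdn
        linarith
      have h1 := case2b (bd G B) lam hlam' C3 σ (Real.log ((d * Fintype.card V : ℕ) : ℝ))
        (Real.sqrt s) hC3 hL
      calc Real.exp (-(lam / 10) * rB B) ≤ Real.exp (-(lam / 20) * (σ / C3) -
            bd G B * Real.log ((d * Fintype.card V : ℕ) : ℝ)) := Real.exp_le_exp.2 h1
        _ = Real.exp (-(lam / 20) * (σ / C3)) *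
          (((d * Fintype.card V : ℕ) : ℝ)⁻¹) ^ (bd G B) := by
            rw [sub_eq_add_neg, Real.exp_add]
            congr 1
            rw [inv_pow, ← Real.exp_log (pow_pos hdn _), ← Real.exp_neg, Real.log_pow]
    refine (Finset.sum_le_sum hA).trans ?_
    rw [← ENNReal.ofReal_sum_of_nonneg fun B _ => by positivity]
    apply ENNReal.ofReal_le_ofReal
    rw [← Finset.mul_sum, mul_comm (4 : ℝ)]
    exact mul_le_mul_of_nonneg_left (hB V G d hG hd hdeg) (by positivity)
  calc (frog G lam) {ω | rset o τ ω ≠ Finset.univ}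
      ≤ (frog G lam) (({ω | Good G ω}ᶜ ∪ ((⋃ A ∈ Sm, ES A) ∪ (⋃ A ∈ F, E12 A))) ∪
        (⋃ B ∈ (Finset.univ : Finset (Finset V)), E3 B)) := measure_mono hincl
    _ ≤ ((frog G lam) {ω | Good G ω}ᶜ + ((frog G lam) (⋃ A ∈ Sm, ES A) +
        (frog G lam) (⋃ A ∈ F, E12 A))) +
        (frog G lam) (⋃ B ∈ (Finset.univ : Finset (Finset V)), E3 B) := by
          refine (measure_union_le _ _).trans ?_
          gcongr
          refine (measure_union_le _ _).trans ?_
          gcongr
          exact measure_union_le _ _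
    _ ≤ _ := by
          rw [hgood, zero_add]
          gcongr

end Pool.Agent.H102R3.FRA
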